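import Mathlib
import Pool.Agent.H713R2.PD.Dyn

set_option autoImplicit false

open MeasureTheory Filter Polynomial

namespace Pool.Agent.Results.MP_28f8a1_an.ConstantTermPerturbation

/-- All critical points of `S` escape to infinity; such a polynomial is hyperbolic. -/
def AllCriticalPointsEscape (S : ℂ[X]) : Prop :=
  ∀ c : ℂ, S.derivative.eval c = 0 →
    Tendsto (fun k : ℕ => ‖(fun w : ℂ => S.eval w)^[k] c‖) atTop atTop

/-- Let `T` be a complex polynomial of degree `d ≥ 2` with leading coefficient `a` and with `m`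
distinct critical points. The set of constants `t` for which `T + t` has a non-escaping critical
point has area at most `m * π * ‖a‖ ^ (-2 / (d - 1))`; in particular for every
`r > √m * ‖a‖ ^ (-1 / (d - 1))` there is `t` with `‖t‖ < r` such that all the critical points of
`T + t` escape, so that `T + t` is hyperbolic. -/
theorem result :
    ∀ T : ℂ[X], 2 ≤ T.natDegree →
      volume {t : ℂ | ¬ AllCriticalPointsEscape (T + C t)} ≤
        ENNReal.ofReal ((T.derivative.roots.toFinset.card : ℝ) *
          (Real.pi * ‖T.leadingCoeff‖ ^ (-(2 / ((T.natDegree : ℝ) - 1))))) ∧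
      ∀ r : ℝ, √(T.derivative.roots.toFinset.card : ℝ) *
          ‖T.leadingCoeff‖ ^ (-(1 / ((T.natDegree : ℝ) - 1))) < r →
        ∃ t : ℂ, ‖t‖ < r ∧ AllCriticalPointsEscape (T + C t) := by
  intro T hT
  refine ⟨Pool.Agent.H713R2.PD.area_main hT, fun r hr => ?_⟩
  obtain ⟨t, ht1, ht2⟩ := Pool.Agent.H713R2.PD.exists_main hT hr 0
  exact ⟨t, by simpa using ht1, ht2⟩

end Pool.Agent.Results.MP_28f8a1_an.ConstantTermPerturbation
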