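import Pool.Agent.H713R2.SJ.SJ11

set_option autoImplicit false

open Filter Topology Polynomial

namespace Pool.Agent.Results.MP_28f8a1_an.ReduceJuliaCritical

/-- The orbit of `c` under `T` escapes to infinity or converges to an attracting cycle (a sink) of
`T`. (The same formula as in the frozen statement of the problem.) -/
def Attracted (T : ℂ[X]) (c : ℂ) : Prop :=
  Tendsto (fun k : ℕ => ‖(fun w : ℂ => T.eval w)^[k] c‖) atTop atTop ∨
    ∃ n : ℕ, 0 < n ∧ ∃ z : ℂ, (fun w : ℂ => T.eval w)^[n] z = z ∧
      ‖deriv ((fun w : ℂ => T.eval w)^[n]) z‖ < 1 ∧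
      Tendsto (fun k : ℕ => (fun w : ℂ => T.eval w)^[n * k] c) atTop (𝓝 z)

/-- The Julia set of `T`: the boundary of the set of escaping points. -/
def Julia (T : ℂ[X]) : Set ℂ :=
  frontier {z : ℂ | Tendsto (fun k : ℕ => ‖(fun w : ℂ => T.eval w)^[k] z‖) atTop atTop}

/-- The number of distinct critical points of `T` which are not attracted. -/
noncomputable def numNonAttracted (T : ℂ[X]) : ℕ :=
  Set.ncard {z : ℂ | (derivative T).eval z = 0 ∧ ¬ Attracted T z}

/-- The critical points of `T` in the Julia set have infinite, pairwise disjoint orbits. -/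
def DisjointOrbits (T : ℂ[X]) : Prop :=
  ∀ z ∈ Julia T, ∀ z' ∈ Julia T, (derivative T).eval z = 0 → (derivative T).eval z' = 0 →
    ∀ a b : ℕ, (fun w : ℂ => T.eval w)^[a] z = (fun w : ℂ => T.eval w)^[b] z' → z = z' ∧ a = b

open Classical in
theorem num_eq {T : ℂ[X]} (hd : 2 ≤ T.natDegree) :
    numNonAttracted T = (Pool.Agent.H713R2.SJ.naM T).toFinset.card := by
  rw [numNonAttracted, ← Set.ncard_coe_finset]
  congr 1
  ext z
  simp only [Set.mem_setOf_eq, Finset.mem_coe, Multiset.mem_toFinset, Pool.Agent.H713R2.SJ.naM,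
    Multiset.mem_filter, Polynomial.mem_roots (Pool.Agent.H713R2.SJ.deriv_ne hd),
    Polynomial.IsRoot.def]
  exact Iff.rfl

/-- Every complex polynomial `T` of degree `d ≥ 2` is a limit of polynomials `S` of degree `d`
such that the critical points of `S` in its Julia set are simple and have infinite, pairwise
disjoint orbits, and such that `S` has at most as many distinct non-attracted critical points
as `T`; strictly less, if the critical points of `T` in its Julia set do not have infinite,
pairwise disjoint orbits. -/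
theorem result (T : ℂ[X]) (hd : 2 ≤ T.natDegree) (ε : ℝ) (hε : 0 < ε) :
    ∃ S : ℂ[X], S.natDegree = T.natDegree ∧ (∀ i : ℕ, ‖S.coeff i - T.coeff i‖ < ε) ∧
      numNonAttracted S ≤ numNonAttracted T ∧
      (¬ DisjointOrbits T → numNonAttracted S < numNonAttracted T) ∧
      DisjointOrbits S ∧
      ∀ z ∈ Julia S, (derivative S).eval z = 0 → (derivative S).rootMultiplicity z = 1 := by
  obtain ⟨S, h1, h2, h3, h4, h5, h6, _⟩ := Pool.Agent.H713R2.SJ.reduce _ T hd rfl ε hε
  refine ⟨S, h1, h2, ?_, ?_, h5, h4⟩
  · rw [num_eq hd, num_eq (by omega)]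
    exact h3
  · intro h
    rw [num_eq hd, num_eq (by omega)]
    exact h6 h

end Pool.Agent.Results.MP_28f8a1_an.ReduceJuliaCritical
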