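import Pool.Agent.H792R2.Dyn.Core

set_option autoImplicit false

open Filter Topology Polynomial

namespace Pool.Agent.Results.MP_28f8a1_an.SplitCritical

/-- The orbit of `c` under `T` escapes to infinity or converges to an attracting cycle (a sink) of
`T`. (The same formula as in the frozen statement of the problem.) -/
def Attracted (T : ℂ[X]) (c : ℂ) : Prop :=
  Tendsto (fun k : ℕ => ‖(fun w : ℂ => T.eval w)^[k] c‖) atTop atTop ∨
    ∃ n : ℕ, 0 < n ∧ ∃ z : ℂ, (fun w : ℂ => T.eval w)^[n] z = z ∧
      ‖deriv ((fun w : ℂ => T.eval w)^[n]) z‖ < 1 ∧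
      Tendsto (fun k : ℕ => (fun w : ℂ => T.eval w)^[n * k] c) atTop (𝓝 z)

/-- The orbit of `c` under `T` lands on a repelling periodic point. -/
def LandsRepelling (T : ℂ[X]) (c : ℂ) : Prop :=
  ∃ M p : ℕ, 0 < p ∧
    (fun w : ℂ => T.eval w)^[p] ((fun w : ℂ => T.eval w)^[M] c) = (fun w : ℂ => T.eval w)^[M] c ∧
    1 < ‖deriv ((fun w : ℂ => T.eval w)^[p]) ((fun w : ℂ => T.eval w)^[M] c)‖

/-- `c` is a multiple critical point of `T` and the derivative at the critical value `T(c)` of some
iterate `T^m`, `m ≤ n`, has modulus at least `μ^n`. -/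
def MultipleExpanding (T : ℂ[X]) (μ : ℝ) (n : ℕ) (c : ℂ) : Prop :=
  2 ≤ (derivative T).rootMultiplicity c ∧
    ∃ m ≤ n, μ ^ n ≤ ‖deriv ((fun w : ℂ => T.eval w)^[m]) (T.eval c)‖

/-- For some `m ≤ n`, the derivative at `γ = 0` of `γ ↦ (T + γ)^m (c)` has modulus at
least `μ^n`. -/
def ParameterExpanding (T : ℂ[X]) (μ : ℝ) (n : ℕ) (c : ℂ) : Prop :=
  ∃ m ≤ n, μ ^ n ≤ ‖deriv (fun γ : ℂ => (fun w : ℂ => T.eval w + γ)^[m] c) 0‖

/-- Let `T` be a complex polynomial of degree at least two such that the points which escape to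
infinity or tend to a sink are dense in the plane, and let `E` be any set. Suppose that for some
`μ > 1` there are infinitely many `n` such that every critical point `c ∉ E` of `T` is attracted,
or lands on a repelling cycle, or is a multiple critical point with
`max_{m ≤ n} |(T^m)'(T c)| ≥ μ^n`, or satisfies `max_{m ≤ n} |d/dγ (T + γ)^m (c)| ≥ μ^n` at
`γ = 0`. Then arbitrarily close to `T` there is a polynomial `S` of the same degree all of whose
critical points are attracted, except for critical points in `E` whose multiplicity is the same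
for `S` as for `T`. In particular (`E = ∅`) `T` is a limit of hyperbolic polynomials of the same
degree. -/
theorem result (T : ℂ[X]) (hd : 2 ≤ T.natDegree) (hdense : Dense {z : ℂ | Attracted T z})
    (E : Set ℂ) {μ : ℝ} (hμ : 1 < μ)
    (hexp : ∃ᶠ n : ℕ in atTop, ∀ c : ℂ, (derivative T).eval c = 0 → c ∉ E →
      Attracted T c ∨ LandsRepelling T c ∨ MultipleExpanding T μ n c ∨
        ParameterExpanding T μ n c) :
    ∀ ε : ℝ, 0 < ε → ∃ S : ℂ[X], S.natDegree = T.natDegree ∧
      (∀ i : ℕ, ‖S.coeff i - T.coeff i‖ < ε) ∧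
      ∀ z : ℂ, (derivative S).eval z = 0 → ¬ Attracted S z →
        z ∈ E ∧ (derivative S).rootMultiplicity z = (derivative T).rootMultiplicity z := by
  classical
  have hT' : derivative T ≠ 0 := by
    intro h
    have := Polynomial.derivative_eq_zero.1 h
    omega
  set crit : Finset ℂ := (derivative T).roots.toFinset with hcrit
  have hmem : ∀ z : ℂ, (derivative T).eval z = 0 → z ∈ crit := fun z hz => by
    rw [hcrit, Multiset.mem_toFinset, Polynomial.mem_roots hT']
    exact hz
  have hmem' : ∀ z ∈ crit, (derivative T).eval z = 0 := fun z hz => by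
    rw [hcrit, Multiset.mem_toFinset, Polynomial.mem_roots hT'] at hz
    exact hz
  -- a fixed set of critical points using the third alternative
  obtain ⟨A, hA, hfreq⟩ : ∃ A ∈ crit.powerset, ∃ᶠ n : ℕ in atTop,
      (∀ c : ℂ, (derivative T).eval c = 0 → c ∉ E →
        Attracted T c ∨ LandsRepelling T c ∨ MultipleExpanding T μ n c ∨
          ParameterExpanding T μ n c) ∧
      crit.filter (fun c => MultipleExpanding T μ n c) = A := by
    by_contra hcon
    have h1 : ∀ᶠ n : ℕ in atTop, ∀ A ∈ crit.powerset,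
      ¬ ((∀ c : ℂ, (derivative T).eval c = 0 → c ∉ E →
        Attracted T c ∨ LandsRepelling T c ∨ MultipleExpanding T μ n c ∨
          ParameterExpanding T μ n c) ∧
      crit.filter (fun c => MultipleExpanding T μ n c) = A) := by
      rw [Filter.eventually_all_finset]
      intro A hA
      rw [← Filter.not_frequently]
      exact fun h2 => hcon ⟨A, hA, h2⟩
    obtain ⟨n, hn1, hn2⟩ := (hexp.and_eventually h1).exists
    exact hn2 _ (Finset.mem_powerset.2 (Finset.filter_subset _ _)) ⟨hn1, rfl⟩
  set Cs : Finset ℂ := A.filter (fun c => ¬ Attracted T c) with hCs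
  set Es : Finset ℂ := crit.filter (fun c => ¬ Attracted T c ∧ LandsRepelling T c) with hEs
  set Fs : Finset ℂ := crit.filter (fun c => c ∉ E ∧ ¬ Attracted T c ∧ ¬ LandsRepelling T c ∧
    c ∉ A) with hFs
  have hmult : ∀ c ∈ A, 2 ≤ (derivative T).rootMultiplicity c := by
    intro c hc
    obtain ⟨n, _, hn⟩ := hfreq.exists
    rw [← hn, Finset.mem_filter] at hc
    exact hc.2.1
  exact Pool.Agent.H792R2.Dyn.core T hd hdense hμ Cs Es Fs
    (fun c hc => ⟨hmult c (Finset.mem_filter.1 hc).1, (Finset.mem_filter.1 hc).2⟩)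
    (fun e he => ⟨(Finset.mem_filter.1 he).2.2, (Finset.mem_filter.1 he).2.1⟩)
    (fun e he => (Finset.mem_filter.1 he).2.2.1) E
    (by
      intro z hz
      by_cases h1 : Attracted T z
      · exact Or.inl h1
      · by_cases h2 : z ∈ E
        · exact Or.inr (Or.inr (Or.inr (Or.inr h2)))
        · by_cases h3 : z ∈ A
          · exact Or.inr (Or.inl (Finset.mem_filter.2 ⟨h3, h1⟩))
          · by_cases h4 : LandsRepelling T z
            · exact Or.inr (Or.inr (Or.inl (Finset.mem_filter.2 ⟨hmem z hz, h1, h4⟩)))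
            · exact Or.inr (Or.inr (Or.inr (Or.inl
                (Finset.mem_filter.2 ⟨hmem z hz, h2, h1, h4, h3⟩)))))
    (by
      refine hfreq.mono fun n hn => ?_
      obtain ⟨hn1, hn2⟩ := hn
      refine ⟨fun c hc => ?_, fun e he => ?_⟩
      · have h1 := (Finset.mem_filter.1 hc).1
        rw [← hn2, Finset.mem_filter] at h1
        exact h1.2.2
      · obtain ⟨h1, h2, h3, h4, h5⟩ := Finset.mem_filter.1 he
        rcases hn1 e (hmem' e h1) h2 with h | h | h | h
        · exact absurd h h3
        · exact absurd h h4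
        · exact absurd (hn2 ▸ Finset.mem_filter.2 ⟨h1, h⟩) h5
        · exact h)

end Pool.Agent.Results.MP_28f8a1_an.SplitCritical
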